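import Pool.Agent.Zk46.FD.Defs

/-! # Module SQ1 for helper46: palindromes divisible by a square, with the outer digits fixed -/

set_option autoImplicit false

namespace Pool.Agent.Zk63.FD46

open Finset Pool.Agent.Zk46.FD

lemma cf_dvd (b M : ℕ) (i : ℕ) (j : Fin (M + 1)) (h : i ≤ j) : b ^ i ∣ cf b M j := by
  unfold cf
  split_ifs with hj
  · exact dvd_add (pow_dvd_pow b h) (pow_dvd_pow b (by omega))
  · exact pow_dvd_pow b (by have := j.2; omega)

lemma cf_self (b M : ℕ) (j : Fin (M + 1)) : cf b M j ≡ b ^ (j : ℕ) [MOD b ^ ((j : ℕ) + 1)] := by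
  unfold cf
  split_ifs with hj
  · have h : b ^ ((j : ℕ) + 1) ∣ b ^ (2 * M - j) := pow_dvd_pow b (by omega)
    have h2 : b ^ (2 * M - j) ≡ 0 [MOD b ^ ((j : ℕ) + 1)] := (Nat.modEq_zero_iff_dvd).2 h
    simpa using Nat.ModEq.add_left (b ^ (j : ℕ)) h2
  · have h : (j : ℕ) = M := by have := j.2; omega
    rw [h]

/-- a palindrome determines its digits -/
lemma pal_inj (b M : ℕ) (hb : 2 ≤ b) (a a' : Fin (M + 1) → ℕ) (ha : ∀ j, a j < b) (ha' : ∀ j, a' j < b)
    (h : pal b M a = pal b M a') : a = a' := by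
  have key : ∀ n : ℕ, ∀ j : Fin (M + 1), (j : ℕ) = n → a j = a' j := by
    intro n
    induction n using Nat.strong_induction_on with
    | _ n ih =>
      intro j hj
      have hs : ∀ u : Fin (M + 1) → ℕ, pal b M u =
          ∑ i ∈ univ.filter (fun i : Fin (M + 1) => i < j), cf b M i * u i +
            ∑ i ∈ univ.filter (fun i : Fin (M + 1) => ¬ i < j), cf b M i * u i := by
        intro u
        rw [pal, Finset.sum_filter_add_sum_filter_not]
      have hlow : ∑ i ∈ univ.filter (fun i : Fin (M + 1) => i < j), cf b M i * a i =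
          ∑ i ∈ univ.filter (fun i : Fin (M + 1) => i < j), cf b M i * a' i := by
        refine Finset.sum_congr rfl fun i hi => ?_
        rw [Finset.mem_filter] at hi
        rw [ih i (by have := hi.2; rw [Fin.lt_def] at this; omega) i rfl]
      have hmod : ∀ u : Fin (M + 1) → ℕ, ∑ i ∈ univ.filter (fun i : Fin (M + 1) => ¬ i < j), cf b M i * u i ≡
          b ^ (j : ℕ) * u j [MOD b ^ ((j : ℕ) + 1)] := by
        intro u
        rw [← Finset.add_sum_erase _ _ (show j ∈ univ.filter (fun i : Fin (M + 1) => ¬ i < j) by simp)]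
        have h0 : ∑ i ∈ (univ.filter (fun i : Fin (M + 1) => ¬ i < j)).erase j, cf b M i * u i ≡ 0
            [MOD b ^ ((j : ℕ) + 1)] := by
          refine (Nat.modEq_zero_iff_dvd).2 (Finset.dvd_sum fun i hi => ?_)
          rw [Finset.mem_erase, Finset.mem_filter] at hi
          have hij : (j : ℕ) + 1 ≤ i := by
            have h1 := hi.1
            have h2 := hi.2.2
            rw [Fin.lt_def] at h2
            have : (i : ℕ) ≠ j := fun h => h1 (Fin.ext h)
            omega
          exact (cf_dvd b M _ i hij).mul_right _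
        simpa using Nat.ModEq.add (Nat.ModEq.mul_right (u j) (cf_self b M j)) h0
      have h1 : b ^ (j : ℕ) * a j ≡ b ^ (j : ℕ) * a' j [MOD b ^ ((j : ℕ) + 1)] := by
        refine (hmod a).symm.trans (Nat.ModEq.trans ?_ (hmod a'))
        have h2 := hs a
        have h3 := hs a'
        have h4 : ∑ i ∈ univ.filter (fun i : Fin (M + 1) => ¬ i < j), cf b M i * a i =
            ∑ i ∈ univ.filter (fun i : Fin (M + 1) => ¬ i < j), cf b M i * a' i := by omega
        rw [h4]
      have h2 : a j ≡ a' j [MOD b] := by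
        have hb0 : b ^ (j : ℕ) ≠ 0 := pow_ne_zero _ (by omega)
        rw [pow_succ] at h1
        exact Nat.ModEq.mul_left_cancel' hb0 h1
      have h3 : a j % b = a' j % b := h2
      rwa [Nat.mod_eq_of_lt (ha j), Nat.mod_eq_of_lt (ha' j)] at h3
  funext j
  exact key j j rfl

/-- the part of the digits with the number at least `k` -/
def top (b M k : ℕ) (a : Fin (M + 1) → ℕ) : ℕ :=
  ∑ i ∈ univ.filter (fun i : Fin (M + 1) => ¬ (i : ℕ) < k), cf b M i * a i

lemma geo (b M : ℕ) (hb : 2 ≤ b) : ∀ i : ℕ, i ≤ M →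
    (∑ j ∈ Ico (M - i) (M + 1), (if j < M then b ^ j + b ^ (2 * M - j) else b ^ M) * (b - 1)) + b ^ (M - i) =
      b ^ (M + 1 + i) := by
  intro i
  obtain ⟨c, rfl⟩ : ∃ c, b = c + 1 := ⟨b - 1, by omega⟩
  induction i with
  | zero =>
    intro _
    simp
    ring
  | succ i ih =>
    intro hi
    have h := ih (by omega)
    have h1 : M - i = M - (i + 1) + 1 := by omega
    rw [Finset.sum_eq_sum_Ico_succ_bot (by omega), ← h1, if_pos (by omega)]
    have h2 : 2 * M - (M - (i + 1)) = M + 1 + i := by omega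
    have h3 : M + 1 + (i + 1) = M + 1 + i + 1 := by omega
    rw [h2, h3, pow_succ (c + 1) (M + 1 + i)]
    have h4 : (c + 1) ^ (M - i) = (c + 1) ^ (M - (i + 1)) * (c + 1) := by rw [h1, pow_succ]
    simp only [Nat.add_sub_cancel] at h ⊢
    rw [h4] at h
    nlinarith [h]

lemma top_lt (b M k : ℕ) (hb : 2 ≤ b) (hk : k ≤ M) (a : Fin (M + 1) → ℕ) (ha : ∀ j, a j < b) :
    top b M k a < b ^ (2 * M + 1 - k) := by
  have h1 : top b M k a ≤ ∑ i ∈ univ.filter (fun i : Fin (M + 1) => ¬ (i : ℕ) < k), cf b M i * (b - 1) := by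
    refine Finset.sum_le_sum fun i _ => Nat.mul_le_mul_left _ ?_
    have := ha i
    omega
  have h2 : ∑ i ∈ univ.filter (fun i : Fin (M + 1) => ¬ (i : ℕ) < k), cf b M i * (b - 1) =
      ∑ j ∈ Ico k (M + 1), (if j < M then b ^ j + b ^ (2 * M - j) else b ^ M) * (b - 1) := by
    rw [Finset.sum_filter]
    rw [Finset.sum_fin_eq_sum_range]
    have : Ico k (M + 1) = (range (M + 1)).filter (fun j => ¬ j < k) := by
      ext j
      simp [Finset.mem_Ico, and_comm]
    rw [this, Finset.sum_filter]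
    refine Finset.sum_congr rfl fun j hj => ?_
    rw [Finset.mem_range] at hj
    rw [dif_pos hj]
    simp only [cf]
  have h3 := geo b M hb (M - k) (by omega)
  have h4 : M - (M - k) = k := by omega
  have h5 : M + 1 + (M - k) = 2 * M + 1 - k := by omega
  rw [h4, h5] at h3
  have h6 : 0 < b ^ k := pow_pos (by omega) k
  omega

theorem t_SQ1 : S_SQ1 := by
  intro b M k p hb hM hk hp hpb
  have hD : 0 < p ^ 2 * b ^ k := Nat.mul_pos (pow_pos (by omega) 2) (pow_pos (by omega) k)
  set D : ℕ := p ^ 2 * b ^ k with hDdef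
  set N : ℕ := b ^ (2 * M + 1 - k) with hN
  set F : (Fin (M + 1) → ℕ) → (Fin k → ℕ) × ℕ :=
    fun a => (fun i => a ⟨i, by have := i.2; omega⟩, top b M k a / D) with hF
  have hcard : ((A b M).filter fun a => p ^ 2 ∣ pal b M a).card ≤
      ((Fintype.piFinset fun _ : Fin k => Ico 1 b) ×ˢ range (N / D + 1)).card := by
    refine Finset.card_le_card_of_injOn F ?_ ?_
    · intro a ha
      rw [Finset.mem_coe, Finset.mem_filter, A, Fintype.mem_piFinset] at ha
      rw [Finset.mem_coe, Finset.mem_product, Fintype.mem_piFinset, Finset.mem_range]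
      refine ⟨fun i => ha.1 _, ?_⟩
      have h1 := top_lt b M k hb hk a (fun j => (Finset.mem_Ico.1 (ha.1 j)).2)
      exact Nat.lt_succ_of_le (Nat.div_le_div_right h1.le)
    · intro a ha a' ha' hFF
      rw [Finset.mem_coe, Finset.mem_filter, A, Fintype.mem_piFinset] at ha ha'
      have hF1 : ∀ i : Fin (M + 1), (i : ℕ) < k → a i = a' i := by
        intro i hi
        have := congrArg (fun z => z.1 ⟨i, hi⟩) hFF
        simpa [hF] using this
      have hF2 : top b M k a / D = top b M k a' / D := by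
        have := congrArg (fun z => z.2) hFF
        simpa [hF] using this
      have hs : ∀ u : Fin (M + 1) → ℕ, pal b M u =
          ∑ i ∈ univ.filter (fun i : Fin (M + 1) => (i : ℕ) < k), cf b M i * u i + top b M k u := by
        intro u
        rw [pal, top, Finset.sum_filter_add_sum_filter_not]
      have hlow : ∑ i ∈ univ.filter (fun i : Fin (M + 1) => (i : ℕ) < k), cf b M i * a i =
          ∑ i ∈ univ.filter (fun i : Fin (M + 1) => (i : ℕ) < k), cf b M i * a' i := by
        refine Finset.sum_congr rfl fun i hi => ?_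
        rw [Finset.mem_filter] at hi
        rw [hF1 i hi.2]
      have hd : ∀ u : Fin (M + 1) → ℕ, b ^ k ∣ top b M k u := by
        intro u
        refine Finset.dvd_sum fun i hi => ?_
        rw [Finset.mem_filter] at hi
        exact (cf_dvd b M _ i (by have := hi.2; omega)).mul_right _
      have hmod1 : top b M k a ≡ top b M k a' [MOD p ^ 2] := by
        have h1 : pal b M a ≡ pal b M a' [MOD p ^ 2] :=
          ((Nat.modEq_zero_iff_dvd).2 ha.2).trans ((Nat.modEq_zero_iff_dvd).2 ha'.2).symm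
        rw [hs a, hs a', hlow] at h1
        exact Nat.ModEq.add_left_cancel' _ h1
      have hmod2 : top b M k a ≡ top b M k a' [MOD b ^ k] :=
        ((Nat.modEq_zero_iff_dvd).2 (hd a)).trans ((Nat.modEq_zero_iff_dvd).2 (hd a')).symm
      have hcop : (p ^ 2).Coprime (b ^ k) := Nat.Coprime.pow 2 k hpb
      have hmod : top b M k a ≡ top b M k a' [MOD D] :=
        (Nat.modEq_and_modEq_iff_modEq_mul hcop).1 ⟨hmod1, hmod2⟩
      have htop : top b M k a = top b M k a' := by
        rw [← Nat.div_add_mod (top b M k a) D, ← Nat.div_add_mod (top b M k a') D, hF2]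
        have : top b M k a % D = top b M k a' % D := hmod
        rw [this]
      refine pal_inj b M hb a a' (fun j => (Finset.mem_Ico.1 (ha.1 j)).2) (fun j => (Finset.mem_Ico.1 (ha'.1 j)).2) ?_
      rw [hs a, hs a', hlow, htop]
  have hc2 : ((Fintype.piFinset fun _ : Fin k => Ico 1 b) ×ˢ range (N / D + 1)).card = (b - 1) ^ k * (N / D + 1) := by
    rw [Finset.card_product, Fintype.card_piFinset]
    simp
  rw [hc2] at hcard
  have hb0 : (0 : ℝ) < b := by positivity
  have hp0 : (0 : ℝ) < p := by exact_mod_cast hp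
  have h1 : (((A b M).filter fun a => p ^ 2 ∣ pal b M a).card : ℝ) ≤ (b : ℝ) ^ k * ((N : ℝ) / D + 1) := by
    have h2 : (((A b M).filter fun a => p ^ 2 ∣ pal b M a).card : ℝ) ≤ (((b - 1) ^ k * (N / D + 1) : ℕ) : ℝ) := by
      exact_mod_cast hcard
    refine h2.trans ?_
    rw [Nat.cast_mul, Nat.cast_pow, Nat.cast_add, Nat.cast_one]
    have h3 : ((b - 1 : ℕ) : ℝ) ≤ b := by exact_mod_cast Nat.sub_le b 1
    have h4 : ((N / D : ℕ) : ℝ) ≤ (N : ℝ) / D := Nat.cast_div_le
    gcongr
  refine h1.trans (le_of_eq ?_)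
  have hNr : (N : ℝ) = (b : ℝ) ^ (2 * M + 1 - k) := by rw [hN]; push_cast; ring
  have hDr : (D : ℝ) = (p : ℝ) ^ 2 * (b : ℝ) ^ k := by rw [hDdef]; push_cast; ring
  rw [hNr, hDr]
  field_simp

end Pool.Agent.Zk63.FD46
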