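import Pool.Agent.Zk63.FD46.SQ1

/-! # Module SQ2 for helper46: palindromes divisible by a square, the separation of the multiples -/

set_option autoImplicit false

namespace Pool.Agent.Zk63.FD46

open Finset Pool.Agent.Zk46.FD

lemma top_succ (b M k : ℕ) (hk : k < M) (a : Fin (M + 1) → ℕ) :
    top b M k a = cf b M ⟨k, by omega⟩ * a ⟨k, by omega⟩ + top b M (k + 1) a := by
  have hk1 : k < M + 1 := by omega
  have hmem : (⟨k, hk1⟩ : Fin (M + 1)) ∈ univ.filter (fun i : Fin (M + 1) => ¬ (i : ℕ) < k) := by simp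
  have hset : (univ.filter (fun i : Fin (M + 1) => ¬ (i : ℕ) < k)).erase ⟨k, hk1⟩ =
      univ.filter (fun i : Fin (M + 1) => ¬ (i : ℕ) < k + 1) := by
    ext i
    simp only [Finset.mem_erase, Finset.mem_filter, Finset.mem_univ, true_and, ne_eq, Fin.ext_iff]
    omega
  rw [top, ← Finset.add_sum_erase _ _ hmem, hset, top]

lemma top_dvd (b M k : ℕ) (a : Fin (M + 1) → ℕ) : b ^ k ∣ top b M k a := by
  refine Finset.dvd_sum fun i hi => ?_
  rw [Finset.mem_filter] at hi
  exact (cf_dvd b M _ i (by have := hi.2; omega)).mul_right _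

/-- the upper digit number `k` of `top b M k a` is `a_k` -/
lemma top_mem (b M k : ℕ) (hb : 2 ≤ b) (hk : k < M) (a : Fin (M + 1) → ℕ) (ha : ∀ j, a j < b) :
    a ⟨k, by omega⟩ * b ^ (2 * M - k) ≤ top b M k a ∧ top b M k a < (a ⟨k, by omega⟩ + 1) * b ^ (2 * M - k) := by
  rw [top_succ b M k hk a]
  have hcf : cf b M ⟨k, by omega⟩ = b ^ k + b ^ (2 * M - k) := by
    simp [cf, hk]
  rw [hcf]
  set x := a ⟨k, by omega⟩ with hx
  have hxb : x < b := ha _
  refine ⟨by nlinarith [Nat.zero_le (b ^ k * x)], ?_⟩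
  have hlt := top_lt b M (k + 1) hb (by omega) a ha
  have h1 : 2 * M + 1 - (k + 1) = 2 * M - k := by omega
  rw [h1] at hlt
  obtain ⟨u, hu⟩ := top_dvd b M (k + 1) a
  have h2 : b ^ (2 * M - k) = b ^ (k + 1) * b ^ (2 * M - 2 * k - 1) := by
    rw [← pow_add]
    congr 1
    omega
  rw [hu, h2] at hlt
  have hbk : 0 < b ^ (k + 1) := pow_pos (by omega) _
  have hu1 : u < b ^ (2 * M - 2 * k - 1) := Nat.lt_of_mul_lt_mul_left hlt
  have h3 : b ^ (k + 1) * (u + 1) ≤ b ^ (2 * M - k) := by
    rw [h2]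
    exact Nat.mul_le_mul_left _ hu1
  have h4 : b ^ k * (x + 1) ≤ b ^ (k + 1) := by
    rw [pow_succ]
    exact Nat.mul_le_mul_left _ hxb
  have h5 : 0 < b ^ k := pow_pos (by omega) _
  rw [hu]
  nlinarith [h3, h4, h5]

theorem t_SQ2 : S_SQ2 := by
  intro b M k p g Δ hb hk hp hpb hg hgb hΔ hfar
  have hk1 : k < M + 1 := by omega
  set κ : Fin (M + 1) := ⟨k, hk1⟩ with hκ
  have hD : 0 < p ^ 2 * b ^ k := Nat.mul_pos (pow_pos (by omega) 2) (pow_pos (by omega) k)
  set D : ℕ := p ^ 2 * b ^ k with hDdef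
  set E : ℕ := D * (Δ + 1) with hEdef
  have hE : 0 < E := Nat.mul_pos hD (by omega)
  set B : ℕ := b ^ (2 * M - k) with hB
  set F : (Fin (M + 1) → ℕ) → ((Fin k → ℕ) × ℕ) × ℕ :=
    fun a => ((fun i => a ⟨i, by have := i.2; omega⟩, a κ / g), top b M k a / E - (a κ / g) * (g * B) / E) with hF
  -- the interval of `top`
  have hint : ∀ a : Fin (M + 1) → ℕ, (∀ j, a j < b) →
      (a κ / g) * (g * B) ≤ top b M k a ∧ top b M k a < (a κ / g) * (g * B) + g * B := by
    intro a ha
    have h := top_mem b M k hb hk a ha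
    have h1 : a κ / g * g ≤ a κ := Nat.div_mul_le_self _ _
    have h2 : a κ < (a κ / g + 1) * g := by
      have := Nat.lt_mul_div_succ (a κ) (show 0 < g by omega)
      rw [mul_comm] at this
      exact this
    constructor
    · calc (a κ / g) * (g * B) = (a κ / g * g) * B := by ring
        _ ≤ a κ * B := Nat.mul_le_mul_right _ h1
        _ ≤ _ := h.1
    · calc top b M k a < (a κ + 1) * B := h.2
        _ ≤ ((a κ / g + 1) * g) * B := Nat.mul_le_mul_right _ h2
        _ = _ := by ring
  have hs : ∀ u : Fin (M + 1) → ℕ, pal b M u =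
      ∑ i ∈ univ.filter (fun i : Fin (M + 1) => (i : ℕ) < k), cf b M i * u i + top b M k u := by
    intro u
    rw [pal, top, Finset.sum_filter_add_sum_filter_not]
  -- the main argument: injectivity in one block
  have hinj : ∀ a a' : Fin (M + 1) → ℕ, (∀ j, a j < b) → (∀ j, a' j < b) → p ^ 2 ∣ pal b M a → p ^ 2 ∣ pal b M a' →
      (∀ i : Fin (M + 1), (i : ℕ) < k → a i = a' i) → a κ / g = a' κ / g → top b M k a / E = top b M k a' / E →
      top b M k a ≤ top b M k a' → a = a' := by
    intro a a' ha ha' hp1 hp2 hF1 hF2 hF3 hle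
    have hlow : ∑ i ∈ univ.filter (fun i : Fin (M + 1) => (i : ℕ) < k), cf b M i * a i =
        ∑ i ∈ univ.filter (fun i : Fin (M + 1) => (i : ℕ) < k), cf b M i * a' i := by
      refine Finset.sum_congr rfl fun i hi => ?_
      rw [Finset.mem_filter] at hi
      rw [hF1 i hi.2]
    have hmod1 : top b M k a ≡ top b M k a' [MOD p ^ 2] := by
      have h1 : pal b M a ≡ pal b M a' [MOD p ^ 2] :=
        ((Nat.modEq_zero_iff_dvd).2 hp1).trans ((Nat.modEq_zero_iff_dvd).2 hp2).symm
      rw [hs a, hs a', hlow] at h1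
      exact Nat.ModEq.add_left_cancel' _ h1
    have hmod2 : top b M k a ≡ top b M k a' [MOD b ^ k] :=
      ((Nat.modEq_zero_iff_dvd).2 (top_dvd b M k a)).trans ((Nat.modEq_zero_iff_dvd).2 (top_dvd b M k a')).symm
    have hcop : (p ^ 2).Coprime (b ^ k) := Nat.Coprime.pow 2 k hpb
    have hmod : top b M k a ≡ top b M k a' [MOD D] :=
      (Nat.modEq_and_modEq_iff_modEq_mul hcop).1 ⟨hmod1, hmod2⟩
    obtain ⟨δ, hδ⟩ := (Nat.modEq_iff_dvd' hle).1 hmod
    have hδ2 : top b M k a' = top b M k a + D * δ := by omega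
    have hδlt : δ < Δ + 1 := by
      have h1 := Nat.div_add_mod (top b M k a) E
      have h2 := Nat.div_add_mod (top b M k a') E
      have h3 := Nat.mod_lt (top b M k a') hE
      rw [← hF3] at h2
      have h4 : D * δ < D * (Δ + 1) := by
        rw [← hEdef]
        omega
      exact Nat.lt_of_mul_lt_mul_left h4
    have hδ0 : δ = 0 := by
      by_contra hne
      obtain ⟨v, hv⟩ := top_dvd b M (k + 1) a
      obtain ⟨v', hv'⟩ := top_dvd b M (k + 1) a'
      have hcf : (cf b M κ : ℤ) = b ^ k + b ^ (k + 1) * b ^ (2 * M - 2 * k - 1) := by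
        have h1 : cf b M κ = b ^ k + b ^ (2 * M - k) := by simp [cf, hκ, hk]
        rw [h1, ← pow_add]
        push_cast
        congr 2
        omega
      have ht := top_succ b M k hk a
      have ht' := top_succ b M k hk a'
      rw [← hκ] at ht ht'
      have e1 : (top b M k a : ℤ) = (cf b M κ : ℤ) * a κ + b ^ (k + 1) * v := by
        rw [ht, hv]
        push_cast
        ring
      have e2 : (top b M k a' : ℤ) = (cf b M κ : ℤ) * a' κ + b ^ (k + 1) * v' := by
        rw [ht', hv']
        push_cast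
        ring
      have e3 : (top b M k a' : ℤ) = top b M k a + (p : ℤ) ^ 2 * b ^ k * δ := by
        rw [hδ2, hDdef]
        push_cast
        ring
      have hbk : (b : ℤ) ^ k ≠ 0 := pow_ne_zero _ (by exact_mod_cast (by omega : b ≠ 0))
      have e4 : (p : ℤ) ^ 2 * δ - (b ^ (2 * M - 2 * k - 1) * ((a' κ : ℤ) - a κ) + (v' - v)) * b = (a' κ : ℤ) - a κ := by
        apply mul_left_cancel₀ hbk
        rw [e1, e2, hcf] at e3
        have e5 : (b : ℤ) ^ (k + 1) = b ^ k * b := pow_succ _ _
        rw [e5] at e3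
        linear_combination (-1 : ℤ) * e3
      have h1 := hfar δ (by omega) (by omega) (b ^ (2 * M - 2 * k - 1) * ((a' κ : ℤ) - a κ) + (v' - v))
      rw [e4] at h1
      have h2 := Nat.div_add_mod (a κ) g
      have h3 := Nat.div_add_mod (a' κ) g
      have h4 := Nat.mod_lt (a κ) (show 0 < g by omega)
      have h5 := Nat.mod_lt (a' κ) (show 0 < g by omega)
      rw [← hF2] at h3
      have h6 : |(a' κ : ℤ) - a κ| < g := by
        rw [abs_lt]
        constructor <;> omega
      omega
    have htop : top b M k a = top b M k a' := by rw [hδ2, hδ0]; simp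
    refine pal_inj b M hb a a' ha ha' ?_
    rw [hs a, hs a', hlow, htop]
  have hcard : ((A b M).filter fun a => p ^ 2 ∣ pal b M a).card ≤
      (((Fintype.piFinset fun _ : Fin k => Ico 1 b) ×ˢ range (b / g + 1)) ×ˢ range (g * B / E + 2)).card := by
    refine Finset.card_le_card_of_injOn F ?_ ?_
    · intro a ha
      rw [Finset.mem_coe, Finset.mem_filter, A, Fintype.mem_piFinset] at ha
      have hab : ∀ j, a j < b := fun j => (Finset.mem_Ico.1 (ha.1 j)).2
      rw [Finset.mem_coe, Finset.mem_product, Finset.mem_product, Fintype.mem_piFinset, Finset.mem_range, Finset.mem_range]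
      refine ⟨⟨fun i => ha.1 _, ?_⟩, ?_⟩
      · exact Nat.lt_succ_of_le (Nat.div_le_div_right (hab κ).le)
      · have h := hint a hab
        have h1 : top b M k a / E ≤ (a κ / g * (g * B) + g * B) / E := Nat.div_le_div_right h.2.le
        have h2 : (a κ / g * (g * B) + g * B) / E ≤ a κ / g * (g * B) / E + g * B / E + 1 := by
          rw [Nat.add_div hE]
          split_ifs <;> omega
        have h3 : ∀ x y z w : ℕ, x ≤ w → w ≤ y + z + 1 → x - y < z + 2 := by
          intro x y z w h1 h2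
          omega
        exact h3 _ _ _ _ h1 h2
    · intro a ha a' ha' hFF
      rw [Finset.mem_coe, Finset.mem_filter, A, Fintype.mem_piFinset] at ha ha'
      have hab : ∀ j, a j < b := fun j => (Finset.mem_Ico.1 (ha.1 j)).2
      have hab' : ∀ j, a' j < b := fun j => (Finset.mem_Ico.1 (ha'.1 j)).2
      have hF1 : ∀ i : Fin (M + 1), (i : ℕ) < k → a i = a' i := by
        intro i hi
        have := congrArg (fun z => z.1.1 ⟨i, hi⟩) hFF
        simpa [hF] using this
      have hF2 : a κ / g = a' κ / g := by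
        have := congrArg (fun z => z.1.2) hFF
        simpa [hF] using this
      have hF3 : top b M k a / E = top b M k a' / E := by
        have h1 : top b M k a / E - (a κ / g) * (g * B) / E = top b M k a' / E - (a' κ / g) * (g * B) / E := by
          have := congrArg (fun z => z.2) hFF
          simpa [hF] using this
        have h2 := Nat.div_le_div_right (c := E) (hint a hab).1
        have h3 := Nat.div_le_div_right (c := E) (hint a' hab').1
        rw [← hF2] at h1 h3
        omega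
      rcases le_total (top b M k a) (top b M k a') with hle | hle
      · exact hinj a a' hab hab' ha.2 ha'.2 hF1 hF2 hF3 hle
      · exact (hinj a' a hab' hab ha'.2 ha.2 (fun i hi => (hF1 i hi).symm) hF2.symm hF3.symm hle).symm
  have hc2 : (((Fintype.piFinset fun _ : Fin k => Ico 1 b) ×ˢ range (b / g + 1)) ×ˢ range (g * B / E + 2)).card =
      (b - 1) ^ k * (b / g + 1) * (g * B / E + 2) := by
    rw [Finset.card_product, Finset.card_product, Fintype.card_piFinset]
    simp
  rw [hc2] at hcard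
  have hb0 : (0 : ℝ) < b := by exact_mod_cast (by omega : 0 < b)
  have hp0 : (0 : ℝ) < p := by exact_mod_cast hp
  have hg0 : (0 : ℝ) < g := by exact_mod_cast hg
  have hΔ0 : (0 : ℝ) < Δ := by exact_mod_cast hΔ
  have h2 : (((A b M).filter fun a => p ^ 2 ∣ pal b M a).card : ℝ) ≤
      (((b - 1) ^ k * (b / g + 1) * (g * B / E + 2) : ℕ) : ℝ) := by
    exact_mod_cast hcard
  refine h2.trans ?_
  rw [Nat.cast_mul, Nat.cast_mul, Nat.cast_pow, Nat.cast_add, Nat.cast_add, Nat.cast_one, Nat.cast_ofNat]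
  have h3 : ((b - 1 : ℕ) : ℝ) ≤ b := by exact_mod_cast Nat.sub_le b 1
  have h4 : ((b / g : ℕ) : ℝ) ≤ (b : ℝ) / g := Nat.cast_div_le
  have h5 : ((g * B / E : ℕ) : ℝ) ≤ (g : ℝ) * (b : ℝ) ^ (2 * M - 2 * k) / ((p : ℝ) ^ 2 * Δ) := by
    have h6 : ((g * B / E : ℕ) : ℝ) ≤ ((g * B : ℕ) : ℝ) / E := Nat.cast_div_le
    refine h6.trans ?_
    have hBr : (B : ℝ) = (b : ℝ) ^ k * (b : ℝ) ^ (2 * M - 2 * k) := by
      rw [hB, ← pow_add]
      push_cast
      congr 1
      omega
    have hEr : (E : ℝ) = (p : ℝ) ^ 2 * (b : ℝ) ^ k * (Δ + 1) := by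
      rw [hEdef, hDdef]
      push_cast
      ring
    rw [Nat.cast_mul, hBr, hEr, div_le_div_iff₀ (by positivity) (by positivity)]
    have h7 : (0 : ℝ) ≤ (g : ℝ) * (b : ℝ) ^ k * (b : ℝ) ^ (2 * M - 2 * k) * (p : ℝ) ^ 2 := by positivity
    nlinarith [h7]
  gcongr

end Pool.Agent.Zk63.FD46
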